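import Mathlib

/-!
# The numbers `t! / t ^ t` satisfy nontrivial multiplicative relations

For distinct integers `t ≥ 2` the products of the numbers `f t = t! / t ^ t` over finite sets do not
determine the set, and not even the number of its elements.

Since `f m / f (m + 1) = ((m + 1) / m) ^ m`, a relation between the numbers `f t` is the same as a relation
`∏ ((m + 1) / m) ^ (m * E m) = 1` with an integer sequence `E` of finite support whose consecutive terms
differ by at most one. The two relations below were found by lattice reduction with `m`, `m + 1` composed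
of small primes.
-/

set_option autoImplicit false

namespace Pool.Agent.Results.MP_f92aba_nt.NotIndependent

/-- `f t = Γ(1 + t) t ^ (-t) = t! / t ^ t` for a positive integer `t`. -/
def f (t : ℕ) : ℚ := (t.factorial : ℚ) / (t : ℚ) ^ t

theorem key (T S : Finset ℕ) (hT : ∀ t ∈ T, 2 ≤ t) (hS : ∀ s ∈ S, 2 ≤ s)
    (h : (∏ t ∈ T, t.factorial) * (∏ s ∈ S, s ^ s) = (∏ s ∈ S, s.factorial) * ∏ t ∈ T, t ^ t) :
    ∏ t ∈ T, f t = ∏ s ∈ S, f s := by
  unfold f
  rw [Finset.prod_div_distrib, Finset.prod_div_distrib, div_eq_div_iff]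
  · exact_mod_cast h
  · refine Finset.prod_ne_zero_iff.2 fun t ht => ?_
    have := hT t ht
    positivity
  · refine Finset.prod_ne_zero_iff.2 fun t ht => ?_
    have := hS t ht
    positivity

/-- The answer to the question is negative, in both respects: there are disjoint finite sets of
integers `≥ 2`, one with ten and one with nine elements, with equal products of the `t! / t ^ t`; and
there are two disjoint sets with ten elements each with this property. -/
theorem result :
    (∃ T S : Finset ℕ, (∀ t ∈ T, 2 ≤ t) ∧ (∀ s ∈ S, 2 ≤ s) ∧ Disjoint T S ∧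
      T.card = 10 ∧ S.card = 9 ∧ ∏ t ∈ T, f t = ∏ s ∈ S, f s) ∧
    (∃ T S : Finset ℕ, (∀ t ∈ T, 2 ≤ t) ∧ (∀ s ∈ S, 2 ≤ s) ∧ Disjoint T S ∧
      T.card = 10 ∧ S.card = 10 ∧ ∏ t ∈ T, f t = ∏ s ∈ S, f s) := by
  refine ⟨⟨{2, 4, 6, 10, 15, 22, 28, 55, 64, 81}, {7, 8, 11, 12, 21, 27, 54, 66, 80},
      by decide, by decide, by decide, by decide, by decide, ?_⟩,
    ⟨{4, 7, 9, 14, 20, 25, 28, 35, 64, 81}, {3, 8, 10, 15, 21, 24, 27, 36, 63, 80},
      by decide, by decide, by decide, by decide, by decide, ?_⟩⟩
  · exact key _ _ (by decide) (by decide) (by decide +kernel)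
  · exact key _ _ (by decide) (by decide) (by decide +kernel)

end Pool.Agent.Results.MP_f92aba_nt.NotIndependent
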